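import Pool.Agent.Helper45.LinK.GoalsM

/-! # Packet MAINK: from the coordinate form to actions on `D × ℂᵏ` -/

open Complex Metric Set Filter Topology MeasureTheory
open scoped ContDiff ComplexConjugate ComplexOrder Manifold

namespace Pool.Agent.Helper65.LinK

open Pool.Agent.Helper95.Lin Pool.Agent.Helper16.Abund Pool.Agent.Helper92.Orb
open Pool.Agent.Helper45.LinK

theorem herm_eq_hermi {n : ℕ} (A : Matrix (Fin n) (Fin n) ℂ) (u v : Fin n → ℂ) :
    herm A u v = hermi A u v := rfl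

theorem MAINK : S_KFM → S_CORE → S_MAINK := by
  intro hKFM hCORE b k D hD hconn hbdd Γ _ _ hact hfin hk
  obtain ⟨h, hK, hinv, hqc⟩ := hk
  obtain ⟨F, H, hKA, hF, hH⟩ := hKFM hD hconn Γ hact hfin h hK hinv
  have hQ : QCM D H := by
    intro K hKD hKc
    obtain ⟨C, hC, hC2⟩ := hqc K hKD hKc
    refine ⟨C, hC, fun v hv u u' huu => ?_⟩
    have h1 := hC2 (⟨v, hKD hv⟩ : TorTube hD k) hv u u' huu
    rw [← hH (⟨v, hKD hv⟩ : TorTube hD k)] at h1
    exact h1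
  obtain ⟨Λ, hΛ, hm⟩ := hCORE ⟨hD, hconn, hbdd⟩ hKA hQ
  refine ⟨Λ, hΛ, fun m => ?_⟩
  obtain ⟨γ, hγ⟩ := hm m
  exact ⟨γ, fun y => Subtype.ext ((hF γ y).trans (hγ (tvK y) y.2))⟩

end Pool.Agent.Helper65.LinK
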