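import Pool.Agent.Helper45.LinK.GoalsN

/-! # Packet FN: the Christoffel form of the fibres exists -/

open Complex Metric Set Filter Topology MeasureTheory
open scoped ContDiff ComplexConjugate ComplexOrder Manifold

namespace Pool.Agent.Helper65.LinK

open Pool.Agent.Helper95.Lin Pool.Agent.Helper16.Abund Pool.Agent.Helper92.Orb
open Pool.Agent.Helper45.LinK

/-- `dz` as a linear map in the direction. -/
noncomputable def dzL {n : ℕ} {E : Type*} [NormedAddCommGroup E] [NormedSpace ℂ E]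
    (f : Cn n → E) (x : Cn n) : Cn n →ₗ[ℂ] E where
  toFun e := dz e f x
  map_add' e e' := by
    unfold dz
    rw [smul_add, map_add, map_add, smul_add]
    abel
  map_smul' c e := by
    unfold dz
    have h : ∀ (c : ℂ) (e : Cn n), fderiv ℝ f x (c • e) =
        (c.re : ℂ) • fderiv ℝ f x e + (c.im : ℂ) • fderiv ℝ f x (I • e) := by
      intro c e
      have h1 : c • e = c.re • e + c.im • (I • e) := by
        funext i
        simp only [Pi.smul_apply, Pi.add_apply, smul_eq_mul, real_smul]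
        conv_lhs => rw [← re_add_im c]
        ring
      rw [h1, map_add, map_smul, map_smul, Complex.coe_smul, Complex.coe_smul]
    rw [h c e, smul_smul I c e, h (I * c) e]
    simp only [RingHom.id_apply, smul_sub, smul_add, smul_smul, mul_re, mul_im, I_re, I_im]
    have h2 : c = (c.re : ℂ) + (c.im : ℂ) * I := (re_add_im c).symm
    have h3 : c • fderiv ℝ f x e = ((c.re : ℂ) + (c.im : ℂ) * I) • fderiv ℝ f x e := by
      rw [← h2]
    have h4 : (c * I) • fderiv ℝ f x (I • e) =
        (((c.re : ℂ) + (c.im : ℂ) * I) * I) • fderiv ℝ f x (I • e) := by rw [← h2]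
    rw [h3, h4]
    have h5 : (((c.re : ℂ) + (c.im : ℂ) * I) * I) = (c.re : ℂ) * I - (c.im : ℂ) := by
      rw [add_mul, mul_assoc, I_mul_I]; ring
    rw [h5]
    push_cast
    simp only [zero_mul, one_mul, zero_sub, zero_add, mul_neg, neg_smul]
    module

theorem dzL_apply {n : ℕ} {E : Type*} [NormedAddCommGroup E] [NormedSpace ℂ E]
    (f : Cn n → E) (x : Cn n) (e : Cn n) : dzL f x e = dz e f x := rfl

theorem vert_sum {b k : ℕ} (u : Cn k) :
    (vert u : Cn (b + k)) = ∑ l, u l • vert (Pi.single l 1) := by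
  funext i
  rw [Finset.sum_apply]
  refine Fin.addCases (fun j => ?_) (fun j => ?_) i
  · simp [vert, Fin.append_left]
  · simp [vert, Fin.append_right, Pi.single_apply]

theorem dz_vert {b k : ℕ} {E : Type*} [NormedAddCommGroup E] [NormedSpace ℂ E]
    (f : Cn (b + k) → E) (x : Cn (b + k)) (u : Cn k) :
    dz (vert u) f x = ∑ l, u l • dz (vert (Pi.single l 1)) f x := by
  rw [← dzL_apply, vert_sum, map_sum]
  simp only [map_smul, dzL_apply]

theorem dz_hermi {n : ℕ} {H : Cn n → Matrix (Fin n) (Fin n) ℂ} {x : Cn n}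
    (hd : ∀ i j, DifferentiableAt ℝ (fun y => H y i j) x) (e ξ η : Cn n) :
    dz e (fun y => hermi (H y) ξ η) x =
      ∑ i, ∑ j, dz e (fun y => H y i j) x * ξ i * conj (η j) := by
  have h : HasFDerivAt (fun y => hermi (H y) ξ η)
      (∑ i, ∑ j, conj (η j) • (ξ i • fderiv ℝ (fun y => H y i j) x)) x := by
    unfold hermi
    refine HasFDerivAt.fun_sum fun i _ => HasFDerivAt.fun_sum fun j _ => ?_
    exact ((hd i j).hasFDerivAt.mul_const (ξ i)).mul_const (conj (η j))
  unfold dz
  rw [h.fderiv]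
  simp only [_root_.sum_apply, _root_.smul_apply, smul_eq_mul,
    Finset.mul_sum, ← Finset.sum_sub_distrib]
  refine Finset.sum_congr rfl fun i _ => Finset.sum_congr rfl fun j _ => ?_
  ring

theorem hermi_vert {b k : ℕ} (A : Matrix (Fin (b + k)) (Fin (b + k)) ℂ) (a y : Cn k) :
    hermi A (vert a) (vert y) =
      ∑ i : Fin k, ∑ j : Fin k, A (Fin.natAdd b i) (Fin.natAdd b j) * a i * conj (y j) := by
  unfold hermi
  simp [Fin.sum_univ_add, vert, Fin.append_left, Fin.append_right]

theorem hermi_vert' {b k : ℕ} (f : Fin (b + k) → Fin (b + k) → ℂ) (a y : Cn k) :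
    ∑ i, ∑ j, f i j * (vert a : Cn (b + k)) i * conj ((vert y : Cn (b + k)) j) =
      ∑ i : Fin k, ∑ j : Fin k, f (Fin.natAdd b i) (Fin.natAdd b j) * a i * conj (y j) := by
  simp [Fin.sum_univ_add, vert, Fin.append_left, Fin.append_right]

section smooth

variable {E : Type*} [NormedAddCommGroup E] [NormedSpace ℝ E] {M : Set E} {k : ℕ}

theorem det_smooth {A : E → Matrix (Fin k) (Fin k) ℂ}
    (hA : ∀ i j, ContDiffOn ℝ ∞ (fun x => A x i j) M) :
    ContDiffOn ℝ ∞ (fun x => (A x).det) M := by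
  simp only [Matrix.det_apply]
  refine ContDiffOn.sum fun σ _ => ?_
  have h1 : ContDiffOn ℝ ∞ (fun x => ∏ i, A x (σ i) i) M :=
    contDiffOn_prod fun i _ => hA _ _
  exact h1.const_smul (Equiv.Perm.sign σ)

theorem inv_smooth {A : E → Matrix (Fin k) (Fin k) ℂ}
    (hA : ∀ i j, ContDiffOn ℝ ∞ (fun x => A x i j) M) (h0 : ∀ x ∈ M, (A x).det ≠ 0)
    (i j : Fin k) : ContDiffOn ℝ ∞ (fun x => (A x)⁻¹ i j) M := by
  have h1 : (fun x => (A x)⁻¹ i j) = fun x => ((A x).det)⁻¹ * (A x).adjugate i j := by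
    funext x
    rw [Matrix.inv_def, Ring.inverse_eq_inv', Matrix.smul_apply, smul_eq_mul]
  rw [h1]
  refine ((det_smooth hA).inv h0).mul ?_
  simp only [Matrix.adjugate_apply]
  refine det_smooth fun a c => ?_
  simp only [Matrix.updateRow_apply]
  split_ifs
  · exact contDiffOn_const
  · exact hA _ _

end smooth

theorem dz_smooth {n : ℕ} {M : Set (Cn n)} (hM : IsOpen M) {f : Cn n → ℂ}
    (hf : ContDiffOn ℝ ∞ f M) (e : Cn n) : ContDiffOn ℝ ∞ (fun x => dz e f x) M := by
  have h1 : ContDiffOn ℝ ∞ (fderiv ℝ f) M := hf.fderiv_of_isOpen hM le_rfl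
  have h2 : ∀ e : Cn n, ContDiffOn ℝ ∞ (fun x => fderiv ℝ f x e) M := fun e =>
    h1.clm_apply contDiffOn_const
  exact (h2 e).sub (contDiffOn_const.mul (h2 (I • e)))

/-- The elementary bilinear maps `(u, u') ↦ u_l u'_i e_m`. -/
noncomputable def Bil {k : ℕ} (l i m : Fin k) : Cn k →L[ℂ] CE k :=
  (ContinuousLinearMap.proj l : Cn k →L[ℂ] ℂ).smulRight
    ((ContinuousLinearMap.proj i : Cn k →L[ℂ] ℂ).smulRight (Pi.single m (1 : ℂ) : Cn k))

theorem Bil_apply {k : ℕ} (l i m : Fin k) (u u' : Cn k) :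
    Bil l i m u u' = u l • u' i • (Pi.single m (1 : ℂ) : Cn k) := rfl

theorem smul_smooth' {n : ℕ} {M : Set (Cn n)} {f : Cn n → ℂ} (hf : ContDiffOn ℝ ∞ f M)
    {G : Type*} [NormedAddCommGroup G] [NormedSpace ℂ G] (B : G) :
    ContDiffOn ℝ ∞ (fun x => f x • B) M :=
  hf.smul contDiffOn_const

theorem smul_smooth {n k : ℕ} {M : Set (Cn n)} {f : Cn n → ℂ} (hf : ContDiffOn ℝ ∞ f M)
    (B : Cn k →L[ℂ] CE k) : ContDiffOn ℝ ∞ (fun x => f x • B) M :=
  smul_smooth' hf B

theorem FN : S_FN := by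
  intro b k D H hH
  set V : Cn (b + k) → Matrix (Fin k) (Fin k) ℂ :=
    fun x => (H x).submatrix (Fin.natAdd b) (Fin.natAdd b) with hV
  set dd : Fin k → Fin k → Fin k → Cn (b + k) → ℂ := fun l i j x =>
    dz (vert (Pi.single l 1)) (fun y => H y (Fin.natAdd b i) (Fin.natAdd b j)) x with hdd
  set c : Fin k → Fin k → Fin k → Cn (b + k) → ℂ := fun l i m x =>
    ∑ p, (V x).transpose⁻¹ m p * dd l i p x with hc
  have hdet : ∀ x ∈ tubeK D k, (V x).transpose.det ≠ 0 := by
    intro x hx
    have h1 : (V x).PosDef := (hH.posDef x hx).submatrix (Fin.natAdd_injective _ _)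
    rw [Matrix.det_transpose]
    exact h1.det_pos.ne'
  have hVs : ∀ i j, ContDiffOn ℝ ∞ (fun x => (V x).transpose i j) (tubeK D k) := by
    intro i j
    exact hH.smooth _ _
  have hds : ∀ l i j, ContDiffOn ℝ ∞ (dd l i j) (tubeK D k) := by
    intro l i j
    exact dz_smooth hH.isOpen (hH.smooth _ _) _
  have hcs : ∀ l i m, ContDiffOn ℝ ∞ (c l i m) (tubeK D k) := by
    intro l i m
    refine ContDiffOn.sum fun p _ => ?_
    exact (inv_smooth hVs hdet m p).mul (hds l i p)
  refine ⟨fun x => ∑ l, ∑ i, ∑ m, c l i m x • Bil l i m, ?_, ?_⟩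
  · refine ContDiffOn.sum fun l _ => ContDiffOn.sum fun i _ => ContDiffOn.sum fun m _ => ?_
    exact smul_smooth (hcs l i m) (Bil l i m)
  · intro v hv u u' y
    have hd : ∀ i j, DifferentiableAt ℝ (fun y => H y i j) v := fun i j =>
      ((hH.smooth i j).contDiffAt (hH.isOpen.mem_nhds hv)).differentiableAt (by simp)
    rw [dz_hermi hd, hermi_vert', hermi_vert]
    have hN : ∀ m, ((∑ l, ∑ i, ∑ m, c l i m v • Bil l i m) u u') m =
        ∑ l, ∑ i, c l i m v * (u l * u' i) := by
      intro m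
      simp only [_root_.sum_apply, _root_.smul_apply, Bil_apply,
        Finset.sum_apply, Pi.smul_apply, smul_eq_mul, Pi.single_apply]
      refine Finset.sum_congr rfl fun l _ => Finset.sum_congr rfl fun i _ => ?_
      simp
    have hkey : ∀ l i j, ∑ m, V v m j * c l i m v = dd l i j v := by
      intro l i j
      have h2 : (V v).transpose * (V v).transpose⁻¹ = 1 :=
        Matrix.mul_nonsing_inv _ (isUnit_iff_ne_zero.2 (hdet v hv))
      have h3 : ∀ p, ∑ m, V v m j * (V v).transpose⁻¹ m p = (1 : Matrix (Fin k) (Fin k) ℂ) j p := by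
        intro p
        rw [← h2, Matrix.mul_apply]
        rfl
      simp only [hc, Finset.mul_sum]
      rw [Finset.sum_comm]
      simp only [← mul_assoc, ← Finset.sum_mul, h3]
      simp [Matrix.one_apply]
    have hL : ∀ j, ∑ m, V v m j * ((∑ l, ∑ i, ∑ m, c l i m v • Bil l i m) u u') m =
        ∑ l, ∑ i, dd l i j v * (u l * u' i) := by
      intro j
      simp only [hN, Finset.mul_sum]
      rw [Finset.sum_comm]
      refine Finset.sum_congr rfl fun l _ => ?_
      rw [Finset.sum_comm]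
      refine Finset.sum_congr rfl fun i _ => ?_
      rw [← hkey l i j, Finset.sum_mul]
      exact Finset.sum_congr rfl fun m _ => by ring
    have hR : ∀ i j, dz (vert u) (fun x => H x (Fin.natAdd b i) (Fin.natAdd b j)) v =
        ∑ l, u l * dd l i j v := by
      intro i j
      rw [dz_vert]
      rfl
    rw [Finset.sum_comm]
    have e1 : ∀ j, ∑ m, H v (Fin.natAdd b m) (Fin.natAdd b j) *
        ((∑ l, ∑ i, ∑ m, c l i m v • Bil l i m) u u') m * conj (y j) =
        (∑ l, ∑ i, dd l i j v * (u l * u' i)) * conj (y j) := by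
      intro j
      rw [← Finset.sum_mul, ← hL j]
      rfl
    refine (Finset.sum_congr rfl fun j _ => e1 j).trans ?_
    rw [Finset.sum_comm]
    refine Finset.sum_congr rfl fun j _ => ?_
    rw [← Finset.sum_mul]
    congr 1
    rw [Finset.sum_comm]
    refine Finset.sum_congr rfl fun i _ => ?_
    rw [hR, Finset.sum_mul]
    exact Finset.sum_congr rfl fun l _ => by ring

end Pool.Agent.Helper65.LinK
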